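import Mathlib
import Pool.Agent.Lib.helper23.HMP
set_option autoImplicit false
namespace Pool.Agent.H.MP_aa6101_gt
open Set Topology Filter Pool.Agent.Lib.helper23

abbrev I := ℕ → Bool

def opn {Y : Type} [TopologicalSpace Y] (F : Filter Y) : Filter Y where
  sets := {U | interior U ∈ F}
  univ_sets := by simp
  sets_of_superset h h' := mem_of_superset h (interior_mono h')
  inter_sets h h' := by simpa using inter_mem h h'

theorem core : ∃ (D : Type) (_ : TopologicalSpace D) (P : Option I → Filter D),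
    Countable D ∧ T2Space D ∧ (∀ e, (P e).NeBot) ∧ (∀ e, ∀ U ∈ P e, interior U ∈ P e) ∧
    (∀ e U, IsOpen U → U ∈ P e ∨ (closure U)ᶜ ∈ P e) ∧
    (Pairwise fun e e' => Disjoint (P e) (P e')) ∧ (∀ e d, Disjoint (𝓝 d) (P e)) ∧
    ∀ U ∈ P none, {a | U ∉ P (some a)}.Countable := by
  classical
  obtain ⟨S, h1, h2⟩ := exists_dense (ZMod 2)
  let t : Option I → I → ZMod 2 := fun e => e.elim 0 fun a => Pi.single a 1
  let O : Set (I → ZMod 2) := ⋃ a, ⋃ b ≠ a, {y | y a ≠ 0} ∩ {y | y b ≠ 0}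
  have hO : IsOpen O := isOpen_iUnion fun a => isOpen_biUnion fun b _ =>
    (isOpen_ne_fun (continuous_apply a) continuous_const).inter
      (isOpen_ne_fun (continuous_apply b) continuous_const)
  have hO' : Dense O := dense_iff_inter_open.2 fun U hU ⟨y, hy⟩ => by
    obtain ⟨F, u, h3, h4⟩ := isOpen_pi_iff.1 hU y hy
    obtain ⟨a, ha⟩ := F.exists_notMem
    obtain ⟨b, hb⟩ := (insert a F).exists_notMem
    rw [Finset.mem_insert, not_or] at hb
    exact ⟨fun i => if i ∈ F then y i else 1, h4 fun i hi => by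
      simpa [show i ∈ F from hi] using (h3 i hi).2, mem_iUnion.2 ⟨a, mem_iUnion₂.2 ⟨b, hb.1,
        by simp [ha], by simp [hb.2]⟩⟩⟩
  have h3 := h2.inter_of_isOpen_right hO' hO
  have h4 (e) : t e ∉ O := by
    simp only [O, mem_iUnion, not_exists]
    rintro a b hab ⟨h4, h5⟩
    rcases e with _ | c
    · exact h4 rfl
    · exact hab ((by_contra fun h => h5 (Pi.single_eq_of_ne h _)).trans
        (by_contra fun h => h4 (Pi.single_eq_of_ne h _) : a = c).symm)
  have h5 : t.Injective := by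
    rintro (_ | a) (_ | b) h
    · rfl
    · simpa [t] using congrFun h b
    · simpa [t] using congrFun h a
    · exact congrArg _ (by_contra fun h' => by simpa [t, h'] using congrFun h a)
  obtain ⟨𝒰, h6⟩ := Ultrafilter.exists_le (𝓝 (0 : I → ZMod 2) ⊓ generate {V | IsOpen V ∧ Dense V})
    (h := ⟨fun h => by
      obtain ⟨A, hA, B, hB, h⟩ := mem_inf_iff.1 (empty_mem_iff_bot.2 h)
      obtain ⟨T, h7, h8, h9⟩ := mem_generate_iff.1 hB
      have : Dense (⋂₀ T) := h8.dense_sInter (fun _ h => (h7 h).1) fun _ h => (h7 h).2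
      exact ((this.mono h9).inter_nhds_nonempty hA).ne_empty (inter_comm _ _ ▸ h.symm)⟩)
  let F := fun e => 𝒰.map (· + t e)
  have h7 (e V) (h : IsOpen V) (h' : Dense V) : V ∈ F e :=
    h6 (mem_inf_of_right (mem_generate_of_mem ⟨h.preimage (continuous_add_right _),
      h'.preimage (isOpenMap_add_right _)⟩))
  have h8 (e V) (h : IsOpen V) : V ∈ F e ∨ (closure V)ᶜ ∈ F e :=
    Ultrafilter.union_mem_iff.1 (h7 e _ (h.union isClosed_closure.isOpen_compl) (by
      rw [dense_iff_closure_eq, closure_union, closure_compl, ← univ_subset_iff,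
        ← union_compl_self (closure V)]
      exact union_subset_union_right _ (compl_subset_compl.2 interior_subset)))
  have h9 (e) : opn (F e) ≤ 𝓝 (t e) := fun U hU => h6.trans inf_le_left
    ((continuous_add_right _).continuousAt.preimage_mem_nhds
      (by simpa using interior_mem_nhds.2 hU))
  have h10 (e) (U : Set ↥(S ∩ O)) : U ∈ comap Subtype.val (opn (F e : Filter (I → ZMod 2))) ↔
      ∃ V, IsOpen V ∧ V ∈ F e ∧ (↑) ⁻¹' V ⊆ U :=
    ⟨fun ⟨V, h, h'⟩ => ⟨_, isOpen_interior, h, (preimage_mono interior_subset).trans h'⟩,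
      fun ⟨V, h, h', h''⟩ => ⟨V, show interior V ∈ F e from h.interior_eq.symm ▸ h', h''⟩⟩
  refine ⟨↥(S ∩ O), inferInstance, fun e => comap Subtype.val (opn (F e : Filter (I → ZMod 2))),
    (h1.mono inter_subset_left).to_subtype, inferInstance, fun e => forall_mem_nonempty_iff_neBot.1
    fun U hU => ?_, fun e U hU => ?_, fun e U hU => ?_, fun e e' h => disjoint_comap
    ((disjoint_nhds_nhds.2 (h5.ne h)).mono (h9 e) (h9 e')), fun e d => ?_, fun U hU => ?_⟩
  · obtain ⟨V, h11, h12, h13⟩ := (h10 e U).1 hU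
    obtain ⟨y, h14, h15⟩ := h3.inter_open_nonempty V h11 (Ultrafilter.nonempty_of_mem h12)
    exact ⟨⟨y, h15⟩, h13 h14⟩
  · obtain ⟨V, h11, h12, h13⟩ := (h10 e U).1 hU
    exact (h10 e _).2 ⟨V, h11, h12, interior_maximal h13 (h11.preimage continuous_subtype_val)⟩
  · obtain ⟨V, h11, rfl⟩ := isOpen_induced_iff.1 hU
    exact (h8 e V h11).imp (fun h => (h10 e _).2 ⟨V, h11, h, Subset.rfl⟩) fun h =>
      (h10 e _).2 ⟨_, isClosed_closure.isOpen_compl, h, compl_subset_compl.2
        (continuous_subtype_val.closure_preimage_subset V)⟩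
  · rw [nhds_subtype_eq_comap]
    exact disjoint_comap ((disjoint_nhds_nhds.2 fun h : d.1 = t e => h4 e (h ▸ d.2.2)).mono_right (h9 e))
  · obtain ⟨V, h11, h12, h13⟩ := (h10 _ U).1 hU
    choose! G u h14 h15 using isOpen_pi_iff.1 h11
    have h16 := (h1.mono (inter_subset_right (s := V)))
    have h17 : IsOpen (⋃ y ∈ V ∩ S, (G y : Set I).pi (u y)) := isOpen_biUnion fun y hy =>
      isOpen_set_pi (G y).finite_toSet fun a ha => (h14 y hy.1 a ha).1
    refine (h16.biUnion fun y _ => (G y).countable_toSet).mono fun a ha => by_contra fun h =>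
      ha ((h10 _ U).2 ⟨_, h17, ?_, (preimage_mono (iUnion₂_subset fun y hy => h15 y hy.1)).trans h13⟩)
    have h18 := (h8 none _ h17).resolve_right fun h18 => by
      obtain ⟨y, h19, h20⟩ := Ultrafilter.nonempty_of_mem (inter_mem h18 h12)
      refine h19 (closure_mono (fun z hz => ?_) (h2.open_subset_closure_inter h11 h20))
      exact mem_iUnion₂.2 ⟨z, hz, fun a ha => (h14 z hz.1 a ha).2⟩
    refine Ultrafilter.mem_map.2 (mem_of_superset (f := (𝒰 : Filter (I → ZMod 2)))
      (Ultrafilter.mem_coe.2 (Ultrafilter.mem_map.1 h18)) fun y hy => ?_)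
    obtain ⟨z, h19, h20⟩ := mem_iUnion₂.1 hy
    refine mem_iUnion₂.2 ⟨z, h19, fun i hi => ?_⟩
    have : i ≠ a := fun h' => h (mem_biUnion h19 (h' ▸ hi))
    simpa [t, this] using h20 i hi

def Ext {B J : Type} (_ : J → Filter B) : Type := B ⊕ J

section
variable {B J : Type} [TopologicalSpace B] (F : J → Filter B)

instance : TopologicalSpace (Ext F) where
  IsOpen U := IsOpen (Sum.inl ⁻¹' U : Set B) ∧ ∀ j, Sum.inr j ∈ U → Sum.inl ⁻¹' U ∈ F j
  isOpen_univ := ⟨isOpen_univ, fun _ _ => univ_mem⟩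
  isOpen_inter _ _ h h' := ⟨h.1.inter h'.1, fun j hj => inter_mem (h.2 j hj.1) (h'.2 j hj.2)⟩
  isOpen_sUnion s h := ⟨(preimage_sUnion (f := (Sum.inl : B → Ext F))).symm ▸
      isOpen_biUnion fun U hU => (h U hU).1,
    fun j ⟨U, hU, hj⟩ => mem_of_superset ((h U hU).2 j hj)
      (preimage_mono (subset_sUnion_of_mem hU))⟩

def inl (b : B) : Ext F := Sum.inl b
def inr (j : J) : Ext F := Sum.inr j

lemma open_iff {U : Set (Ext F)} :
    IsOpen U ↔ IsOpen (inl F ⁻¹' U) ∧ ∀ j, inr F j ∈ U → inl F ⁻¹' U ∈ F j := Iff.rfl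

lemma emb : IsOpenEmbedding (inl F) :=
  .of_continuous_injective_isOpenMap ⟨fun _ h => h.1⟩ Sum.inl_injective fun U hU =>
    ⟨(preimage_image_eq U Sum.inl_injective).symm ▸ hU, fun _ ⟨_, _, h⟩ => nomatch h⟩

lemma open_ins {U : Set B} (hU : IsOpen U) {j : J} (h : U ∈ F j) :
    IsOpen (insert (inr F j) (inl F '' U)) := by
  have : inl F ⁻¹' insert (inr F j) (inl F '' U) = U := by
    ext x
    exact ⟨fun h => h.elim (nomatch ·) fun ⟨_, h, h'⟩ => Sum.inl_injective h' ▸ h,
      fun h => Or.inr ⟨x, h, rfl⟩⟩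
  refine (open_iff F).2 ⟨this.symm ▸ hU, ?_⟩
  rintro k (h' | ⟨_, -, h'⟩)
  · rw [this, Sum.inr_injective h']; exact h
  · nomatch h'

lemma t2 [T2Space B] (h1 : ∀ e, ∀ U ∈ F e, interior U ∈ F e)
    (h2 : Pairwise fun e e' => Disjoint (F e) (F e')) (h3 : ∀ e d, Disjoint (𝓝 d) (F e)) :
    T2Space (Ext F) := by
  have h4 (b j) : ∃ U V : Set (Ext F), IsOpen U ∧ IsOpen V ∧ inl F b ∈ U ∧ inr F j ∈ V ∧
      Disjoint U V := by
    obtain ⟨U, hU, V, hV, h⟩ := Filter.disjoint_iff.1 (h3 j b)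
    refine ⟨_, _, (emb F).isOpenMap _ isOpen_interior, open_ins F isOpen_interior (h1 j V hV),
      ⟨b, mem_interior_iff_mem_nhds.2 hU, rfl⟩, Or.inl rfl, disjoint_insert_right.2
        ⟨fun ⟨_, _, h⟩ => (nomatch h), disjoint_image_of_injective (emb F).injective
          (h.mono interior_subset interior_subset)⟩⟩
  refine ⟨?_⟩
  rintro (a | a) (b | b) h
  · exact separated_by_isOpenEmbedding (emb F) fun h' => h (congrArg _ h')
  · exact h4 a b
  · obtain ⟨U, V, h5, h6, h7, h8, h9⟩ := h4 b a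
    exact ⟨V, U, h6, h5, h8, h7, h9.symm⟩
  · obtain ⟨U, hU, V, hV, h'⟩ := Filter.disjoint_iff.1 (h2 fun h' => h (congrArg _ h'))
    refine ⟨_, _, open_ins F isOpen_interior (h1 a U hU), open_ins F isOpen_interior (h1 b V hV),
      Or.inl rfl, Or.inl rfl, disjoint_insert_left.2 ⟨?_, disjoint_insert_right.2
        ⟨fun ⟨_, _, h⟩ => (nomatch h), disjoint_image_of_injective (emb F).injective
          (h'.mono interior_subset interior_subset)⟩⟩⟩
    rintro (h5 | ⟨_, -, h5⟩)
    exacts [h h5, nomatch h5]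

lemma meet (h0 : ∀ e, (F e).NeBot) {W : Set (Ext F)} (hW : IsOpen W) (h : W.Nonempty) :
    (inl F ⁻¹' W).Nonempty := by
  obtain ⟨b | j, h⟩ := h
  · exact ⟨b, h⟩
  · exact (h0 j).nonempty_of_mem (hW.2 j h)

end

end Pool.Agent.H.MP_aa6101_gt
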